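import Pool.Agent.helper34.LogCosh.Final

set_option autoImplicit false

/-!
# Logarithmic coefficients of the class `S*_ch`

For every `f` in `S*_ch` and every `n ≥ 1` the `n`-th logarithmic coefficient satisfies
`|γ_n| ≤ 1 / (2 n)`.

Proof.  Put `h(w) = w + cosh w - 1`.  If `z f'/f = ω + cosh ω` with a Schwarz function
`ω = ∑ c_k z^k`, then `2 n γ_n` is the `n`-th Taylor coefficient of `h(ω)`, and after a rotation of
`z` it suffices to bound its real part.  Let `a = (c_k)_{0<k<n}`, `m = ‖a‖²`, let
`ã_k = conj a_{n-k}`, and let `P`, `C` be the square norms of the symmetric and antisymmetric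
parts of `a`.  The basic tool is the following: if `|g| ≤ K |q|` on the disc with a polynomial `q`,
then the square sum of the Taylor coefficients of `g` is at most `K²` times the one of `q`.
Used with `q = 1` and `q = 1 + ã(z)`, `g = q ω` it gives `m + |c_n|² ≤ 1` and
`m + W ≤ 2 (1 - Re c_n)`, where `W = ∑_{0<k<n} |a_k + (a * ã)_k|²`; used with `q = ∑_{k<n} c_k z^k`
it bounds the contribution of `cosh w - 1 - w²/2` by `0.0431 m`.  Hence
`Re [zⁿ] h(ω) ≤ 1 - (2 C + W) / 2 + 0.0431 m`.  The heart of the matter is the finite inequality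
`2 C + W ≥ 0.0862 m` for `m ≤ 3/10` (theorem `main_ineq`), which is proved by discrete Fourier
analysis at the `n`-th roots of `1` and of `-1`; the case `m > 3/10` is elementary.
-/

open Pool.Agent.helper34.LogCosh

namespace Pool.Agent.Results.MP_3ad82e_an.LogCoeffBound

/-- Every `f` in `S*_ch` has exactly one sequence `γ` of logarithmic coefficients, and
`|γ n| ≤ 1 / (2 n)` for all `n ≥ 1`. -/
theorem result (f : ℂ → ℂ) (hf : StarCh f) :
    (∃! γ : ℕ → ℂ, IsLogCoeff f γ) ∧
      ∀ γ : ℕ → ℂ, IsLogCoeff f γ → ∀ n : ℕ, 1 ≤ n → ‖γ n‖ ≤ 1 / (2 * n) :=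
  main_theorem f hf

end Pool.Agent.Results.MP_3ad82e_an.LogCoeffBound
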